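import Pool.Agent.K1H72.OP.Stm

set_option autoImplicit false

/-!
# Project OP: pieces OP-3 (S_BD and S_AN)
-/

namespace Pool.Agent.K1H38.OP

open K1H72.OP Polynomial Finset

/-- coefficientwise majorant -/
def Maj (P Q : ℤ[X]) : Prop := ∀ n, |P.coeff n| ≤ Q.coeff n

theorem Maj.mul {P Q P' Q' : ℤ[X]} (h : Maj P Q) (h' : Maj P' Q') : Maj (P * P') (Q * Q') := by
  intro n
  rw [Polynomial.coeff_mul, Polynomial.coeff_mul]
  refine (Finset.abs_sum_le_sum_abs _ _).trans (Finset.sum_le_sum fun x _ => ?_)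
  rw [abs_mul]
  exact mul_le_mul (h _) (h' _) (abs_nonneg _) ((abs_nonneg _).trans (h _))

theorem Maj.one : Maj 1 1 := by
  intro n
  rw [Polynomial.coeff_one]
  split_ifs <;> simp

theorem Maj.prod {N : ℕ} {f g : ℕ → ℤ[X]} (h : ∀ j, Maj (f j) (g j)) :
    Maj (∏ j ∈ Finset.range N, f j) (∏ j ∈ Finset.range N, g j) := by
  induction N with
  | zero => simpa using Maj.one
  | succ N ih =>
    rw [Finset.prod_range_succ, Finset.prod_range_succ]
    exact ih.mul (h N)

/-- the majorant -/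
noncomputable def Qol (N : ℕ) : ℤ[X] :=
  (∏ j ∈ Finset.range N, (1 + 3 * X ^ (j + 1))) * ∏ j ∈ Finset.range N, (1 + X ^ (2 * j + 1))

theorem maj1 (j : ℕ) : Maj (1 + 3 * X ^ (j + 1)) (1 + 3 * X ^ (j + 1)) := by
  intro n
  refine le_of_eq (abs_of_nonneg ?_)
  rw [Polynomial.coeff_add, Polynomial.coeff_one]
  have : (3 * X ^ (j + 1) : ℤ[X]).coeff n = if n = j + 1 then 3 else 0 := by
    exact Polynomial.coeff_C_mul_X_pow (3 : ℤ) (j + 1) n
  rw [this]
  split_ifs <;> norm_num

theorem maj2 (j : ℕ) : Maj (1 - X ^ (2 * j + 1)) (1 + X ^ (2 * j + 1)) := by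
  intro n
  rw [Polynomial.coeff_add, Polynomial.coeff_sub, Polynomial.coeff_one, Polynomial.coeff_X_pow]
  split_ifs <;> norm_num

theorem maj_pol (N : ℕ) : Maj (Pol N) (Qol N) := by
  unfold Pol Qol
  exact (Maj.prod maj1).mul (Maj.prod maj2)

theorem coeff_mul_pow_le {Q : ℤ[X]} (h : ∀ n, 0 ≤ Q.coeff n) {r : ℝ} (hr : 0 < r) (n : ℕ) :
    (Q.coeff n : ℝ) * r ^ n ≤ aeval r Q := by
  rw [Polynomial.aeval_eq_sum_range]
  by_cases hn : n ≤ Q.natDegree
  · have := Finset.single_le_sum (f := fun i => (Q.coeff i) • r ^ i)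
      (s := Finset.range (Q.natDegree + 1)) (fun i _ => ?_) (Finset.mem_range.2 (Nat.lt_succ_of_le hn))
    · simpa [zsmul_eq_mul] using this
    · have := h i
      simp only [zsmul_eq_mul]
      have h1 : (0 : ℝ) ≤ (Q.coeff i : ℝ) := by exact_mod_cast this
      positivity
  · rw [Polynomial.coeff_eq_zero_of_natDegree_lt (not_le.1 hn)]
    simp only [Int.cast_zero, zero_mul]
    refine Finset.sum_nonneg fun i _ => ?_
    have := h i
    simp only [zsmul_eq_mul]
    have h1 : (0 : ℝ) ≤ (Q.coeff i : ℝ) := by exact_mod_cast this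
    positivity

theorem geom_le {r : ℝ} (h0 : 0 < r) (h1 : r < 1) (N : ℕ) :
    ∑ j ∈ Finset.range N, r ^ (j + 1) ≤ r / (1 - r) := by
  have h := (summable_geometric_of_lt_one h0.le h1).sum_le_tsum (Finset.range N)
    (fun i _ => by positivity)
  rw [tsum_geometric_of_lt_one h0.le h1] at h
  calc ∑ j ∈ Finset.range N, r ^ (j + 1) = r * ∑ j ∈ Finset.range N, r ^ j := by
        rw [Finset.mul_sum]; exact Finset.sum_congr rfl fun j _ => by ring
    _ ≤ r * (1 - r)⁻¹ := mul_le_mul_of_nonneg_left h h0.le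
    _ = r / (1 - r) := by rw [div_eq_mul_inv]

theorem qol_le (N : ℕ) {r : ℝ} (h0 : 0 < r) (h1 : r < 1) :
    aeval r (Qol N) ≤ Real.exp (4 * r / (1 - r)) := by
  have e : aeval r (Qol N) = (∏ j ∈ Finset.range N, (1 + 3 * r ^ (j + 1))) *
      ∏ j ∈ Finset.range N, (1 + r ^ (2 * j + 1)) := by
    have h3 : aeval r (3 : ℤ[X]) = 3 := map_ofNat _ 3
    simp [Qol, map_prod, h3]
  rw [e]
  have b1 : ∏ j ∈ Finset.range N, (1 + 3 * r ^ (j + 1)) ≤
      Real.exp (∑ j ∈ Finset.range N, 3 * r ^ (j + 1)) := by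
    rw [Real.exp_sum]
    refine Finset.prod_le_prod (fun j _ => by positivity) fun j _ => ?_
    have := Real.add_one_le_exp (3 * r ^ (j + 1))
    linarith
  have b2 : ∏ j ∈ Finset.range N, (1 + r ^ (2 * j + 1)) ≤
      Real.exp (∑ j ∈ Finset.range N, r ^ (j + 1)) := by
    rw [Real.exp_sum]
    refine Finset.prod_le_prod (fun j _ => by positivity) fun j _ => ?_
    have h3 := Real.add_one_le_exp (r ^ (j + 1))
    have h4 : r ^ (2 * j + 1) ≤ r ^ (j + 1) := pow_le_pow_of_le_one h0.le h1.le (by omega)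
    linarith
  calc _ ≤ Real.exp (∑ j ∈ Finset.range N, 3 * r ^ (j + 1)) *
        Real.exp (∑ j ∈ Finset.range N, r ^ (j + 1)) :=
        mul_le_mul b1 b2 (Finset.prod_nonneg fun j _ => by positivity) (Real.exp_pos _).le
    _ = Real.exp (4 * ∑ j ∈ Finset.range N, r ^ (j + 1)) := by
        rw [← Real.exp_add, ← Finset.mul_sum]; ring_nf
    _ ≤ _ := by
        refine Real.exp_le_exp.2 ?_
        have := geom_le h0 h1 N
        calc 4 * ∑ j ∈ Finset.range N, r ^ (j + 1) ≤ 4 * (r / (1 - r)) := by linarith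
          _ = 4 * r / (1 - r) := by ring

theorem t_BD : S_BD := by
  intro n N r h0 h1
  have hm := maj_pol N
  have hq : ∀ n, 0 ≤ (Qol N).coeff n := fun n => (abs_nonneg _).trans (hm n)
  refine le_trans ?_ ((coeff_mul_pow_le hq h0 n).trans (qol_le N h0 h1))
  have : |((Pol N).coeff n : ℝ)| ≤ ((Qol N).coeff n : ℝ) := by
    have := hm n
    exact_mod_cast this
  exact mul_le_mul_of_nonneg_right this (by positivity)

theorem t_AN (h : S_GF) : S_AN := by
  intro q hq
  have hq0 : 0 ≤ ‖q‖ := norm_nonneg q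
  obtain ⟨r, hqr, hr1⟩ := exists_between hq
  have hr0 : 0 < r := hq0.trans_lt hqr
  set C : ℝ := Real.exp (4 * r / (1 - r)) with hC
  have hC0 : 0 < C := Real.exp_pos _
  have hb : ∀ N n : ℕ, ‖((Pol N).coeff n : ℂ) * q ^ n‖ ≤ C * (‖q‖ / r) ^ n := by
    intro N n
    have h1 := t_BD n N r hr0 hr1
    rw [norm_mul, norm_pow]
    have h2 : ‖((Pol N).coeff n : ℂ)‖ = |((Pol N).coeff n : ℝ)| := by
      rw [Complex.norm_intCast]
    rw [h2]
    have h3 : |((Pol N).coeff n : ℝ)| ≤ C / r ^ n := by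
      rw [le_div_iff₀ (pow_pos hr0 n)]
      exact h1
    calc |((Pol N).coeff n : ℝ)| * ‖q‖ ^ n ≤ C / r ^ n * ‖q‖ ^ n :=
          mul_le_mul_of_nonneg_right h3 (by positivity)
      _ = C * (‖q‖ / r) ^ n := by rw [div_pow]; ring
  have hsum : Summable fun n : ℕ => C * (‖q‖ / r) ^ n :=
    (summable_geometric_of_lt_one (by positivity) ((div_lt_one hr0).2 hqr)).mul_left C
  have hab : ∀ n : ℕ, ‖(a n : ℂ) * q ^ n‖ ≤ C * (‖q‖ / r) ^ n := by
    intro n
    rw [h n n le_rfl]
    exact hb n n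
  have hs : Summable fun n : ℕ => ‖(a n : ℂ) * q ^ n‖ :=
    Summable.of_nonneg_of_le (fun n => norm_nonneg _) hab hsum
  refine ⟨hs, ?_⟩
  have hlim1 : Filter.Tendsto (fun N : ℕ => ∑' n : ℕ, ((Pol N).coeff n : ℂ) * q ^ n)
      Filter.atTop (nhds (∑' n : ℕ, (a n : ℂ) * q ^ n)) := by
    refine tendsto_tsum_of_dominated_convergence hsum (fun n => ?_)
      (Filter.Eventually.of_forall fun N n => hb N n)
    refine tendsto_const_nhds.congr' ?_
    filter_upwards [Filter.eventually_ge_atTop n] with N hN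
    rw [h n N hN]
  have hev : ∀ N : ℕ, ∑' n : ℕ, ((Pol N).coeff n : ℂ) * q ^ n =
      (∏ j ∈ Finset.range N, (1 + 3 * q ^ (j + 1))) *
        ∏ j ∈ Finset.range N, (1 - q ^ (2 * j + 1)) := by
    intro N
    have e1 : aeval q (Pol N) = (∏ j ∈ Finset.range N, (1 + 3 * q ^ (j + 1))) *
        ∏ j ∈ Finset.range N, (1 - q ^ (2 * j + 1)) := by
      have h3 : aeval q (3 : ℤ[X]) = 3 := map_ofNat _ 3
      simp [Pol, map_prod, h3]
    rw [← e1, Polynomial.aeval_eq_sum_range, tsum_eq_sum (s := Finset.range ((Pol N).natDegree + 1))]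
    · exact Finset.sum_congr rfl fun n _ => by rw [zsmul_eq_mul]
    · intro n hn
      rw [Finset.mem_range, not_lt] at hn
      rw [Polynomial.coeff_eq_zero_of_natDegree_lt (by omega)]
      simp
  have hm1 : Multipliable fun j : ℕ => (1 + 3 * q ^ (j + 1) : ℂ) := by
    refine Complex.multipliable_one_add_of_summable ?_
    have : Summable fun j : ℕ => q ^ (j + 1) := by
      have := (summable_geometric_of_norm_lt_one hq).mul_left q
      refine this.congr fun j => by ring
    exact this.mul_left 3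
  have hm2 : Multipliable fun j : ℕ => (1 - q ^ (2 * j + 1) : ℂ) := by
    have : Summable fun j : ℕ => -q ^ (2 * j + 1) := by
      have h2 : ‖q ^ 2‖ < 1 := by
        rw [norm_pow]
        exact pow_lt_one₀ hq0 hq (by norm_num)
      have := (summable_geometric_of_norm_lt_one h2).mul_left (-q)
      refine this.congr fun j => by ring
    have h3 := Complex.multipliable_one_add_of_summable this
    refine h3.congr fun j => by ring
  have hlim2 : Filter.Tendsto (fun N : ℕ => ∑' n : ℕ, ((Pol N).coeff n : ℂ) * q ^ n)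
      Filter.atTop (nhds (F q)) := by
    have := hm1.tendsto_prod_tprod_nat.mul hm2.tendsto_prod_tprod_nat
    refine (this.congr fun N => (hev N).symm)
  have hF : ∑' n : ℕ, (a n : ℂ) * q ^ n = F q := tendsto_nhds_unique hlim1 hlim2
  rw [← hF]
  exact hs.of_norm.hasSum

end Pool.Agent.K1H38.OP
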