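import Pool.Agent.K1H72.OP.Stm

set_option autoImplicit false

/-!
# Project OP: piece OP-2 (S_GF2), truncated q-binomial theorem and Euler's identity
-/

namespace Pool.Agent.K1H38.OP

open K1H72.OP

/-- shorthand for the variable -/
noncomputable abbrev x : PowerSeries ℤ := PowerSeries.X

theorem E_mul (i : ℕ) : E i * (1 - x ^ (i + 1)) = 1 := by
  ext n
  rw [mul_sub, mul_one, map_sub, PowerSeries.coeff_mul_X_pow', PowerSeries.coeff_one]
  unfold E
  simp only [PowerSeries.coeff_mk]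
  by_cases hn : n = 0
  · subst hn
    simp
  · rw [if_neg hn]
    by_cases hi : i + 1 ≤ n
    · rw [if_pos hi]
      have : (i + 1) ∣ n ↔ (i + 1) ∣ (n - (i + 1)) := by
        obtain ⟨m, rfl⟩ := Nat.exists_eq_add_of_le hi
        simp
      simp only [this]
      ring
    · rw [if_neg hi]
      have : ¬ (i + 1) ∣ n := fun h => hi (Nat.le_of_dvd (Nat.pos_of_ne_zero hn) h)
      rw [if_neg this]
      ring

/-- the coefficients of the q-binomial series -/
noncomputable def c : ℕ → PowerSeries ℤ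
  | 0 => 1
  | (m + 1) => -(c m * (1 - 3 * x ^ m) * E m)

theorem c_succ (m : ℕ) : c (m + 1) * (1 - x ^ (m + 1)) = -(c m * (1 - 3 * x ^ m)) := by
  rw [c]
  calc -(c m * (1 - 3 * x ^ m) * E m) * (1 - x ^ (m + 1)) =
        -(c m * (1 - 3 * x ^ m)) * (E m * (1 - x ^ (m + 1))) := by ring
    _ = _ := by rw [E_mul, mul_one]

theorem c_eq (m : ℕ) : c (m + 1) = (-1) ^ (m + 1) *
    ((∏ i ∈ Finset.range m, ((1 - 3 * x ^ (i + 1)) * E i)) * (-2 * E m)) := by
  induction m with
  | zero => rw [c, c]; simp; ring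
  | succ m ih =>
    rw [c, ih, Finset.prod_range_succ]
    ring

theorem T_eq (m : ℕ) : (-1) ^ m * T m = c m * x ^ m := by
  cases m with
  | zero => simp [T, c]
  | succ m =>
    rw [c_eq, T]
    ring

/-- the truncated q-binomial series at `X ^ k` -/
noncomputable def G (N k : ℕ) : PowerSeries ℤ := ∑ m ∈ Finset.range (N + 1), c m * x ^ (k * m)

theorem G_rec (N k : ℕ) : (1 + x ^ k) * G N k = (1 + 3 * x ^ k) * G N (k + 1) +
    x ^ (k * (N + 1)) * (c N * (1 - 3 * x ^ N)) := by
  have h1 : G N k - G N (k + 1) =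
      -∑ m ∈ Finset.range N, c m * (1 - 3 * x ^ m) * x ^ (k * (m + 1)) := by
    unfold G
    rw [← Finset.sum_sub_distrib, Finset.sum_range_succ', ← Finset.sum_neg_distrib]
    simp only [mul_zero, pow_zero, mul_one, sub_self, add_zero]
    refine Finset.sum_congr rfl fun m _ => ?_
    have h := c_succ m
    calc c (m + 1) * x ^ (k * (m + 1)) - c (m + 1) * x ^ ((k + 1) * (m + 1)) =
          c (m + 1) * (1 - x ^ (m + 1)) * x ^ (k * (m + 1)) := by ring
      _ = _ := by rw [h]; ring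
  have h2 : ∑ m ∈ Finset.range N, c m * (1 - 3 * x ^ m) * x ^ (k * (m + 1)) =
      x ^ k * (G N k - 3 * G N (k + 1)) - x ^ (k * (N + 1)) * (c N * (1 - 3 * x ^ N)) := by
    have h3 : x ^ k * (G N k - 3 * G N (k + 1)) =
        ∑ m ∈ Finset.range (N + 1), c m * (1 - 3 * x ^ m) * x ^ (k * (m + 1)) := by
      unfold G
      rw [Finset.mul_sum, ← Finset.sum_sub_distrib, Finset.mul_sum]
      refine Finset.sum_congr rfl fun m _ => ?_
      ring
    rw [h3, Finset.sum_range_succ]
    ring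
  rw [h2] at h1
  linear_combination h1

/-- reduction modulo `X ^ (N + 1)` -/
noncomputable abbrev rd (N : ℕ) :
    PowerSeries ℤ →+* PowerSeries ℤ ⧸ Ideal.span {(x ^ (N + 1) : PowerSeries ℤ)} :=
  Ideal.Quotient.mk _

theorem rd_zero {N k : ℕ} (h : N + 1 ≤ k) : rd N (x ^ k) = 0 := by
  rw [Ideal.Quotient.eq_zero_iff_mem, Ideal.mem_span_singleton]
  exact pow_dvd_pow _ h

theorem coeff_eq_of_rd {N n : ℕ} (hn : n ≤ N) {a b : PowerSeries ℤ} (h : rd N a = rd N b) :
    PowerSeries.coeff n a = PowerSeries.coeff n b := by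
  rw [Ideal.Quotient.eq, Ideal.mem_span_singleton, PowerSeries.X_pow_dvd_iff] at h
  have := h n (by omega)
  rw [map_sub, sub_eq_zero] at this
  exact this

theorem G_last (N : ℕ) : rd N (G N (N + 1)) = 1 := by
  unfold G
  rw [Finset.sum_range_succ', map_add, map_sum, Finset.sum_eq_zero]
  · simp [c]
  · intro m _
    rw [map_mul, rd_zero (by nlinarith), mul_zero]

theorem G_one_aux (N j : ℕ) : rd N (G N 1 * ∏ k ∈ Finset.range j, (1 + x ^ (k + 1))) =
    rd N ((∏ k ∈ Finset.range j, (1 + 3 * x ^ (k + 1))) * G N (j + 1)) := by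
  induction j with
  | zero => simp
  | succ j ih =>
    have h0 : rd N ((∏ k ∈ Finset.range j, (1 + 3 * x ^ (k + 1))) *
        (x ^ ((j + 1) * (N + 1)) * (c N * (1 - 3 * x ^ N)))) = 0 := by
      rw [map_mul, map_mul, rd_zero (by nlinarith), zero_mul, mul_zero]
    calc rd N (G N 1 * ∏ k ∈ Finset.range (j + 1), (1 + x ^ (k + 1))) =
          rd N (G N 1 * ∏ k ∈ Finset.range j, (1 + x ^ (k + 1))) * rd N (1 + x ^ (j + 1)) := by
          rw [Finset.prod_range_succ, ← mul_assoc, map_mul]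
      _ = rd N ((∏ k ∈ Finset.range j, (1 + 3 * x ^ (k + 1))) *
            ((1 + x ^ (j + 1)) * G N (j + 1))) := by
          rw [ih, ← map_mul]
          congr 1
          ring
      _ = rd N ((∏ k ∈ Finset.range (j + 1), (1 + 3 * x ^ (k + 1))) * G N (j + 1 + 1) +
            (∏ k ∈ Finset.range j, (1 + 3 * x ^ (k + 1))) *
              (x ^ ((j + 1) * (N + 1)) * (c N * (1 - 3 * x ^ N)))) := by
          rw [G_rec, Finset.prod_range_succ]
          congr 1
          ring
      _ = _ := by rw [map_add, h0, add_zero]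

theorem prod_even_odd (N : ℕ) :
    (∏ k ∈ Finset.range N, (1 - x ^ (2 * (k + 1)))) * ∏ k ∈ Finset.range N, (1 - x ^ (2 * k + 1)) =
      ∏ k ∈ Finset.range (2 * N), (1 - x ^ (k + 1)) := by
  induction N with
  | zero => simp
  | succ N ih =>
    rw [show 2 * (N + 1) = 2 * N + 1 + 1 by ring, Finset.prod_range_succ, Finset.prod_range_succ,
      Finset.prod_range_succ, Finset.prod_range_succ, ← ih]
    ring

theorem prod_big (N M : ℕ) : rd N (∏ k ∈ Finset.range (N + M), (1 - x ^ (k + 1))) =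
    rd N (∏ k ∈ Finset.range N, (1 - x ^ (k + 1))) := by
  induction M with
  | zero => simp
  | succ M ih =>
    rw [← add_assoc, Finset.prod_range_succ, map_mul, ih, map_sub, rd_zero (by omega), map_one,
      sub_zero, mul_one]

theorem isUnit_prod (N : ℕ) : IsUnit (∏ k ∈ Finset.range N, (1 - x ^ (k + 1))) := by
  induction N with
  | zero => simp
  | succ N ih =>
    rw [Finset.prod_range_succ]
    exact ih.mul (IsUnit.of_mul_eq_one (E N) (by rw [mul_comm, E_mul]))

theorem euler (N : ℕ) : rd N ((∏ k ∈ Finset.range N, (1 + x ^ (k + 1))) *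
    ∏ k ∈ Finset.range N, (1 - x ^ (2 * k + 1))) = 1 := by
  have hu : IsUnit (rd N (∏ k ∈ Finset.range N, (1 - x ^ (k + 1)))) := (isUnit_prod N).map _
  refine hu.mul_left_cancel ?_
  rw [← map_mul, ← mul_assoc, ← Finset.prod_mul_distrib, mul_one]
  have h1 : ∏ k ∈ Finset.range N, ((1 - x ^ (k + 1)) * (1 + x ^ (k + 1))) =
      ∏ k ∈ Finset.range N, (1 - x ^ (2 * (k + 1))) :=
    Finset.prod_congr rfl fun k _ => by ring
  rw [h1, prod_even_odd, two_mul, prod_big]

theorem coe_pol (N : ℕ) : ((Pol N : Polynomial ℤ) : PowerSeries ℤ) =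
    (∏ j ∈ Finset.range N, (1 + 3 * x ^ (j + 1))) * ∏ j ∈ Finset.range N, (1 - x ^ (2 * j + 1)) := by
  have h : ((Pol N : Polynomial ℤ) : PowerSeries ℤ) =
    Polynomial.coeToPowerSeries.ringHom (Pol N) := rfl
  have h3 : ((3 : Polynomial ℤ) : PowerSeries ℤ) = 3 :=
    map_ofNat Polynomial.coeToPowerSeries.ringHom 3
  rw [h, Pol, map_mul, map_prod, map_prod]
  simp [h3]

theorem t_GF2 : S_GF2 := by
  intro n N hn
  have h1 : ∑ m ∈ Finset.range (N + 1), (-1) ^ m * PowerSeries.coeff n (T m) =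
      PowerSeries.coeff n (G N 1) := by
    unfold G
    rw [map_sum]
    refine Finset.sum_congr rfl fun m _ => ?_
    rw [one_mul, ← T_eq]
    have : ((-1) ^ m : PowerSeries ℤ) = PowerSeries.C ((-1) ^ m) := by simp
    rw [this, PowerSeries.coeff_C_mul]
  rw [h1, ← Polynomial.coeff_coe, coe_pol]
  refine coeff_eq_of_rd hn ?_
  have h2 := G_one_aux N N
  have h3 := euler N
  calc rd N (G N 1) = rd N (G N 1) * rd N ((∏ k ∈ Finset.range N, (1 + x ^ (k + 1))) *
        ∏ k ∈ Finset.range N, (1 - x ^ (2 * k + 1))) := by rw [h3, mul_one]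
    _ = rd N (G N 1 * ∏ k ∈ Finset.range N, (1 + x ^ (k + 1))) *
        rd N (∏ k ∈ Finset.range N, (1 - x ^ (2 * k + 1))) := by
        rw [← map_mul, ← map_mul, mul_assoc]
    _ = _ := by rw [h2, map_mul, G_last, mul_one, ← map_mul]

end Pool.Agent.K1H38.OP
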